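import Pool.Agent.W787.PS.StmB

/-!
# Project PS: the Cauchy property
-/

open MeasureTheory Set Metric Filter Topology
open scoped ContDiff

noncomputable section

namespace Pool.Agent.W787.PS

namespace CauAux

variable {M : Type} [TopologicalSpace M] [T2Space M] [CompactSpace M]
  [MeasurableSpace M] [BorelSpace M]

theorem intc (μ : Measure M) [IsFiniteMeasure μ] (f : M → ℝ) (hf : Continuous f) :
    Integrable f μ :=
  hf.integrable_of_hasCompactSupport (HasCompactSupport.of_compactSpace f)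

theorem cs (μ : Measure M) [IsFiniteMeasure μ] (f g : M → ℝ) (hf : Continuous f)
    (hg : Continuous g) :
    |∫ x, f x * g x ∂μ| ≤ Real.sqrt (∫ x, f x ^ 2 ∂μ) * Real.sqrt (∫ x, g x ^ 2 ∂μ) := by
  have h1 : Integrable (fun x => f x * g x) μ := intc μ _ (hf.mul hg)
  have h2 : Integrable (fun x => f x ^ 2) μ := intc μ _ (hf.pow 2)
  have h3 : Integrable (fun x => g x ^ 2) μ := intc μ _ (hg.pow 2)
  have hF : 0 ≤ ∫ x, f x ^ 2 ∂μ := integral_nonneg fun x => sq_nonneg _
  have hG : 0 ≤ ∫ x, g x ^ 2 ∂μ := integral_nonneg fun x => sq_nonneg _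
  have key : ∀ t : ℝ, 0 ≤ (∫ x, f x ^ 2 ∂μ) * (t * t) + (2 * ∫ x, f x * g x ∂μ) * t
      + ∫ x, g x ^ 2 ∂μ := by
    intro t
    have e : ∫ x, (t * f x + g x) ^ 2 ∂μ = (∫ x, f x ^ 2 ∂μ) * (t * t)
        + (2 * ∫ x, f x * g x ∂μ) * t + ∫ x, g x ^ 2 ∂μ := by
      have e1 : ∀ x, (t * f x + g x) ^ 2 = (t * t) * f x ^ 2 + (2 * t) * (f x * g x) + g x ^ 2 := by
        intro x; ring
      simp_rw [e1]
      have hA : Integrable (fun x => (t * t) * f x ^ 2 + (2 * t) * (f x * g x)) μ :=
        (h2.const_mul _).add (h1.const_mul _)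
      rw [integral_add hA h3,
        integral_add (h2.const_mul _) (h1.const_mul _), integral_const_mul, integral_const_mul]
      ring
    rw [← e]
    exact integral_nonneg fun x => sq_nonneg _
  have hd := discrim_le_zero key
  unfold discrim at hd
  rw [← Real.sqrt_mul hF]
  apply Real.abs_le_sqrt
  nlinarith

theorem step1 {D P K C q : ℝ} (hD : 0 ≤ D) (hq : 0 ≤ q) (hC : 0 ≤ C) (hP : P ≤ C * D)
    (hP0 : 0 ≤ P) (hK : K = Real.sqrt (C + 1) + q * Real.sqrt C)
    (h : D ≤ Real.sqrt (P + D) + q * Real.sqrt P) : D ≤ K ^ 2 := by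
  have h1 : Real.sqrt (P + D) ≤ Real.sqrt (C + 1) * Real.sqrt D := by
    rw [← Real.sqrt_mul (by linarith)]
    exact Real.sqrt_le_sqrt (by linarith)
  have h2 : Real.sqrt P ≤ Real.sqrt C * Real.sqrt D := by
    rw [← Real.sqrt_mul hC]
    exact Real.sqrt_le_sqrt hP
  have h3 : D ≤ K * Real.sqrt D := by
    have := mul_le_mul_of_nonneg_left h2 hq
    rw [hK]
    nlinarith
  rcases hD.eq_or_lt with h0 | h0
  · rw [← h0]; positivity
  · have h4 : 0 < Real.sqrt D := Real.sqrt_pos.mpr h0
    have h5 : Real.sqrt D * Real.sqrt D = D := Real.mul_self_sqrt hD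
    have h6 : Real.sqrt D ≤ K := by
      by_contra hc
      push Not at hc
      nlinarith
    have h7 : 0 ≤ Real.sqrt D := h4.le
    nlinarith

end CauAux

open CauAux in
theorem cau (h1 : S_SMO) (h2 : S_DIR) (h3 : S_POIM) (h4 : S_REL) : S_CAU := by
  intro M _ _ _ _ _ _ X h lam hsm hpos hlam 𝒰 u C hps hbd
  have hprob : IsProbabilityMeasure X.vol := ⟨X.vol_univ⟩
  obtain ⟨sC, scon, sadd, ssub, smul, scmul, scomp, gsym, gadd, gsub, gcm, gco, gnn, gch⟩ := h1 M X
  obtain ⟨dint, dcs, dsym, dadd, dsub, dcm, dco, dnn⟩ := h2 M X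
  obtain ⟨Cp, hCp, poi⟩ := h3 M X
  have hcont : Continuous h := sC h hsm
  -- bounds for h
  obtain ⟨x0⟩ : Nonempty M := inferInstance
  obtain ⟨xa, -, hxa⟩ := isCompact_univ.exists_isMinOn (univ_nonempty) hcont.continuousOn
  obtain ⟨xb, -, hxb⟩ := isCompact_univ.exists_isMaxOn (univ_nonempty) hcont.continuousOn
  obtain ⟨a, ha⟩ : ∃ a, a = h xa := ⟨_, rfl⟩
  obtain ⟨b, hb⟩ : ∃ b, b = h xb := ⟨_, rfl⟩
  have ha0 : 0 < a := by rw [ha]; exact hpos _
  have hb0 : 0 < b := by rw [hb]; exact hpos _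
  have hah : ∀ x, a ≤ h x := fun x => by rw [ha]; exact hxa (mem_univ x)
  have hbh : ∀ x, h x ≤ b := fun x => by rw [hb]; exact hxb (mem_univ x)
  set Cm : ℝ := |C| + 1 with hCm
  have hCm1 : 1 ≤ Cm := by have := abs_nonneg C; linarith
  have hCm0 : 0 < Cm := by linarith
  have hCC : C ≤ Cm := by have := le_abs_self C; linarith
  set S := Real.sqrt Cm with hS
  have hS1 : 0 < S := Real.sqrt_pos.mpr hCm0
  -- Cauchy-Schwarz for the nonlinear term
  have nl : ∀ w φ : M → ℝ, Continuous w → Continuous φ → ∫ x, Real.exp (w x) ^ 2 ∂X.vol ≤ Cm →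
      |∫ x, Real.exp (w x) * φ x ∂X.vol| ≤ S * Real.sqrt (∫ x, φ x ^ 2 ∂X.vol) := by
    intro w φ hw hφ hwC
    have := cs X.vol (fun x => Real.exp (w x)) φ (Real.continuous_exp.comp hw) hφ
    refine this.trans ?_
    exact mul_le_mul_of_nonneg_right (Real.sqrt_le_sqrt hwC) (Real.sqrt_nonneg _)
  have nla : ∀ w φ : M → ℝ, Continuous w → Continuous φ → ∫ x, Real.exp (w x) ^ 2 ∂X.vol ≤ Cm →
      ∫ x, Real.exp (w x) * |φ x| ∂X.vol ≤ S * Real.sqrt (∫ x, φ x ^ 2 ∂X.vol) := by
    intro w φ hw hφ hwC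
    have := nl w (fun x => |φ x|) hw hφ.abs hwC
    have e : ∫ x, |φ x| ^ 2 ∂X.vol = ∫ x, φ x ^ 2 ∂X.vol := by
      congr 1; ext x; exact sq_abs _
    rw [e] at this
    exact (le_abs_self _).trans this
  have nlh : ∀ w φ : M → ℝ, Continuous w → Continuous φ → ∫ x, Real.exp (w x) ^ 2 ∂X.vol ≤ Cm →
      |∫ x, h x * Real.exp (w x) * φ x ∂X.vol| ≤ b * (S * Real.sqrt (∫ x, φ x ^ 2 ∂X.vol)) := by
    intro w φ hw hφ hwC
    refine le_trans ?_ (mul_le_mul_of_nonneg_left (nla w φ hw hφ hwC) hb0.le)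
    rw [← integral_const_mul]
    refine (abs_integral_le_integral_abs).trans ?_
    apply integral_mono
    · exact intc X.vol _ ((hcont.mul (Real.continuous_exp.comp hw)).mul hφ).abs
    · exact intc X.vol _ (continuous_const.mul ((Real.continuous_exp.comp hw).mul hφ.abs))
    · intro x
      show |h x * Real.exp (w x) * φ x| ≤ b * (Real.exp (w x) * |φ x|)
      rw [abs_mul, abs_mul, abs_of_pos (hpos x), abs_of_pos (Real.exp_pos _), mul_assoc]
      exact mul_le_mul_of_nonneg_right (hbh x) (by positivity)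
  -- constants
  set K := Real.sqrt (Cp + 1) + lam * (b * S) * Real.sqrt Cp with hK
  set B1 := (Cp + 1) * K ^ 2 with hB1
  have hB10 : 0 ≤ B1 := by positivity
  set K3 := 1 / a + 2 * b * (1 + S * Real.sqrt B1) with hK3
  have hK30 : 0 ≤ K3 := by positivity
  -- step 1 and 2: uniform bound
  have bound : ∀ w : M → ℝ, PSb X h lam 1 w → ∫ x, Real.exp (w x) ^ 2 ∂X.vol ≤ Cm →
      X.h1sq w ≤ 3 * B1 + 2 * K3 ^ 2 := by
    intro w hw hwC
    have hws := hw.smooth
    have hwc := sC w hws
    set c := ∫ x, w x ∂X.vol with hc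
    set v : M → ℝ := fun x => w x - c with hv
    have hvs : X.Smooth v := ssub w (fun _ => c) hws (scon c)
    have hvc : Continuous v := sC v hvs
    have hv0 : ∫ x, v x ∂X.vol = 0 := by
      rw [hv, integral_sub (intc X.vol _ hwc) (integrable_const _)]
      simp [← hc]
    have hDe : X.dir v v = X.dir w v := by
      have := dsub v w (fun _ => c) hvs hws (scon c)
      rw [dco, sub_zero] at this
      rw [dsym w v]
      exact this
    have hDw : X.dir w w = X.dir v v := by
      have := dsub w w (fun _ => c) hws hws (scon c)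
      rw [dco, sub_zero] at this
      rw [hDe]
      exact this.symm
    have hD0 := dnn v
    have hP : ∫ x, v x ^ 2 ∂X.vol ≤ Cp * X.dir v v := by
      have := poi v hvs
      rw [hv0] at this
      simpa using this
    have hP0 : 0 ≤ ∫ x, v x ^ 2 ∂X.vol := integral_nonneg fun x => sq_nonneg _
    have hb1 := hw.bd v hvs
    rw [hv0, ← hDe] at hb1
    have hn := nlh w v hwc hvc hwC
    have hh1 : X.h1sq v = ∫ x, v x ^ 2 ∂X.vol + X.dir v v := rfl
    rw [hh1] at hb1
    have hD : X.dir v v ≤ K ^ 2 := by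
      refine step1 hD0 (q := lam * (b * S)) (by positivity) hCp.le hP hP0 hK ?_
      have e1 := (abs_le.mp hb1).2
      have e2 := (abs_le.mp hn).2
      have e3 := mul_le_mul_of_nonneg_left e2 hlam.le
      nlinarith
    have hvB : ∫ x, v x ^ 2 ∂X.vol ≤ B1 := by
      refine hP.trans ?_
      rw [hB1]
      have := mul_le_mul_of_nonneg_left hD hCp.le
      nlinarith [sq_nonneg K]
    have hDB : X.dir v v ≤ B1 := by
      refine hD.trans ?_
      rw [hB1]
      nlinarith [sq_nonneg K]
    -- bounds for c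
    have hiw : Integrable (fun x => Real.exp (w x)) X.vol :=
      intc X.vol _ (Real.continuous_exp.comp hwc)
    have hihw : Integrable (fun x => h x * Real.exp (w x)) X.vol :=
      intc X.vol _ (hcont.mul (Real.continuous_exp.comp hwc))
    have hup : c ≤ 1 / a := by
      have e1 : a * Real.exp c ≤ 1 := by
        rw [← hw.norm]
        have e2 : ∫ x, a * (Real.exp c * (1 + v x)) ∂X.vol = a * Real.exp c := by
          rw [integral_const_mul, integral_const_mul, integral_add (integrable_const _)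
            (intc X.vol _ hvc), hv0]
          simp
        rw [← e2]
        apply integral_mono
        · exact intc X.vol _ (continuous_const.mul (continuous_const.mul
            (continuous_const.add hvc)))
        · exact hihw
        · intro x
          show a * (Real.exp c * (1 + v x)) ≤ h x * Real.exp (w x)
          have e3 : Real.exp (w x) = Real.exp c * Real.exp (v x) := by
            rw [← Real.exp_add]; congr 1; simp [hv]
          have e4 : 1 + v x ≤ Real.exp (v x) := by
            have := Real.add_one_le_exp (v x); linarith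
          calc a * (Real.exp c * (1 + v x)) ≤ a * (Real.exp c * Real.exp (v x)) := by
                apply mul_le_mul_of_nonneg_left _ ha0.le
                exact mul_le_mul_of_nonneg_left e4 (Real.exp_pos _).le
            _ ≤ h x * Real.exp (w x) := by
                rw [← e3]
                exact mul_le_mul_of_nonneg_right (hah x) (Real.exp_pos _).le
      have e2 : c ≤ Real.exp c := by have := Real.add_one_le_exp c; linarith
      rw [le_div_iff₀ ha0]
      nlinarith
    have hlo : -(2 * b * (1 + S * Real.sqrt B1)) ≤ c := by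
      by_contra hcc
      push Not at hcc
      have hcneg : c < 0 := by
        have : 0 ≤ 2 * b * (1 + S * Real.sqrt B1) := by positivity
        linarith
      have e1 : ∀ x, Real.exp (w x) ≤ 2 / (-c) + 2 / (-c) * (Real.exp (w x) * |v x|) := by
        intro x
        have hc2 : 0 < 2 / (-c) := by apply div_pos two_pos; linarith
        rcases le_or_gt (w x) (c / 2) with hle | hgt
        · have f1 : Real.exp (w x) ≤ Real.exp (c / 2) := Real.exp_le_exp.mpr hle
          have f2 : Real.exp (c / 2) ≤ 2 / (-c) := by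
            have f3 : -c / 2 ≤ Real.exp (-c / 2) := by
              have := Real.add_one_le_exp (-c / 2); linarith
            have f4 : Real.exp (c / 2) * Real.exp (-c / 2) = 1 := by
              rw [← Real.exp_add]; simp [neg_div]
            rw [le_div_iff₀ (by linarith)]
            have f5 : 0 < Real.exp (c / 2) := Real.exp_pos _
            nlinarith
          have f6 : 0 ≤ 2 / (-c) * (Real.exp (w x) * |v x|) := by positivity
          linarith
        · have f1 : -c / 2 ≤ |v x| := by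
            have : -c / 2 ≤ v x := by simp only [hv]; linarith
            exact this.trans (le_abs_self _)
          have f2 : 1 ≤ 2 / (-c) * |v x| := by
            rw [div_mul_eq_mul_div, le_div_iff₀ (by linarith)]
            linarith
          have f3 : Real.exp (w x) * 1 ≤ Real.exp (w x) * (2 / (-c) * |v x|) :=
            mul_le_mul_of_nonneg_left f2 (Real.exp_pos _).le
          nlinarith
      have e2 : ∫ x, Real.exp (w x) ∂X.vol ≤ 2 / (-c) + 2 / (-c) * (S * Real.sqrt B1) := by
        have g1 : ∫ x, Real.exp (w x) ∂X.vol ≤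
            ∫ x, (2 / (-c) + 2 / (-c) * (Real.exp (w x) * |v x|)) ∂X.vol := by
          apply integral_mono hiw _ e1
          exact intc X.vol _ (continuous_const.add (continuous_const.mul
            ((Real.continuous_exp.comp hwc).mul hvc.abs)))
        refine g1.trans ?_
        have hJ : Integrable (fun x => Real.exp (w x) * |v x|) X.vol :=
          intc X.vol _ ((Real.continuous_exp.comp hwc).mul hvc.abs)
        rw [integral_add (integrable_const _) (hJ.const_mul _), integral_const_mul]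
        have g2 := nla w v hwc hvc hwC
        have g3 : Real.sqrt (∫ x, v x ^ 2 ∂X.vol) ≤ Real.sqrt B1 := Real.sqrt_le_sqrt hvB
        have g4 : ∫ x, Real.exp (w x) * |v x| ∂X.vol ≤ S * Real.sqrt B1 :=
          g2.trans (mul_le_mul_of_nonneg_left g3 hS1.le)
        have g5 : 0 ≤ 2 / (-c) := by apply div_nonneg two_pos.le; linarith
        have g6 := mul_le_mul_of_nonneg_left g4 g5
        simp only [integral_const, probReal_univ, one_smul]
        linarith
      have e3 : 1 ≤ b * ∫ x, Real.exp (w x) ∂X.vol := by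
        rw [← hw.norm, ← integral_const_mul]
        apply integral_mono hihw (hiw.const_mul _)
        intro x
        exact mul_le_mul_of_nonneg_right (hbh x) (Real.exp_pos _).le
      have e4 : 1 ≤ b * (2 / (-c) + 2 / (-c) * (S * Real.sqrt B1)) :=
        e3.trans (mul_le_mul_of_nonneg_left e2 hb0.le)
      have e5 : b * (2 / (-c) + 2 / (-c) * (S * Real.sqrt B1))
          = (2 * b * (1 + S * Real.sqrt B1)) / (-c) := by
        ring
      rw [e5, le_div_iff₀ (by linarith)] at e4
      linarith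
    have hcK : c ^ 2 ≤ K3 ^ 2 := by
      rw [sq_le_sq, abs_of_nonneg hK30, abs_le]
      have g1 : 0 ≤ 1 / a := by positivity
      have g2 : 0 ≤ 2 * b * (1 + S * Real.sqrt B1) := by positivity
      constructor <;> rw [hK3] <;> linarith
    have hwsq : ∫ x, w x ^ 2 ∂X.vol ≤ 2 * B1 + 2 * K3 ^ 2 := by
      have g1 : ∫ x, w x ^ 2 ∂X.vol ≤ ∫ x, (2 * v x ^ 2 + 2 * c ^ 2) ∂X.vol := by
        apply integral_mono (intc X.vol _ (hwc.pow 2))
        · exact intc X.vol _ ((continuous_const.mul (hvc.pow 2)).add continuous_const)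
        · intro x
          show w x ^ 2 ≤ 2 * v x ^ 2 + 2 * c ^ 2
          have : w x = v x + c := by simp [hv]
          rw [this]
          nlinarith [sq_nonneg (v x - c)]
      have hJ : Integrable (fun x => v x ^ 2) X.vol := intc X.vol _ (hvc.pow 2)
      rw [integral_add (hJ.const_mul _) (integrable_const _), integral_const_mul] at g1
      simp only [integral_const, probReal_univ, one_smul] at g1
      linarith
    have : X.h1sq w = ∫ x, w x ^ 2 ∂X.vol + X.dir w w := rfl
    rw [this, hDw]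
    linarith
  -- step 3
  intro ε hε
  have hev : ∀ᶠ n in (𝒰 : Filter ℕ), X.Smooth (u n) ∧ X.h1sq (u n) ≤ 3 * B1 + 2 * K3 ^ 2 := by
    filter_upwards [hps 1 one_pos, hbd] with n hn1 hn2
    exact ⟨hn1.smooth, bound _ hn1 (hn2.trans hCC)⟩
  set s : ℝ := min (Real.sqrt (ε / 8)) (ε / (16 * (lam * (b * S)))) with hs
  have hs0 : 0 < s := lt_min (Real.sqrt_pos.mpr (by positivity)) (by positivity)
  have hs1 : 2 * s ^ 2 ≤ ε / 4 := by
    have g1 : s ≤ Real.sqrt (ε / 8) := min_le_left _ _
    have g2 : s ^ 2 ≤ ε / 8 := by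
      have := pow_le_pow_left₀ hs0.le g1 2
      rwa [Real.sq_sqrt (by positivity)] at this
    linarith
  have hs2 : 4 * (lam * (b * S)) * s ≤ ε / 4 := by
    have g1 : s ≤ ε / (16 * (lam * (b * S))) := min_le_right _ _
    rw [le_div_iff₀ (by positivity)] at g1
    linarith
  obtain ⟨T, hT, hTb⟩ := h4 M X 𝒰 u _ hev (s ^ 2) (by positivity)
  have hT2 : {n | PSb X h lam (Real.sqrt ε / 4) (u n)} ∈ (𝒰 : Filter ℕ) :=
    hps (Real.sqrt ε / 4) (by positivity)
  have hT3 : {n | ∫ x, Real.exp (u n x) ^ 2 ∂X.vol ≤ C} ∈ (𝒰 : Filter ℕ) := hbd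
  refine ⟨T ∩ ({n | PSb X h lam (Real.sqrt ε / 4) (u n)} ∩
    {n | ∫ x, Real.exp (u n x) ^ 2 ∂X.vol ≤ C}), inter_mem hT (inter_mem hT2 hT3), ?_⟩
  rintro n ⟨hn, hn2, hn3⟩ m ⟨hm, hm2, hm3⟩
  have hn2 : PSb X h lam (Real.sqrt ε / 4) (u n) := hn2
  have hm2 : PSb X h lam (Real.sqrt ε / 4) (u m) := hm2
  have hn3 : ∫ x, Real.exp (u n x) ^ 2 ∂X.vol ≤ C := hn3
  have hm3 : ∫ x, Real.exp (u m x) ^ 2 ∂X.vol ≤ C := hm3
  set φ : M → ℝ := fun x => u n x - u m x with hφ
  have hφs : X.Smooth φ := ssub _ _ hn2.smooth hm2.smooth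
  have hφc : Continuous φ := sC _ hφs
  have hφ2 : ∫ x, φ x ^ 2 ∂X.vol ≤ s ^ 2 := hTb n hn m hm
  have hφ3 : Real.sqrt (∫ x, φ x ^ 2 ∂X.vol) ≤ s := by
    rw [← Real.sqrt_sq hs0.le]; exact Real.sqrt_le_sqrt hφ2
  have hdd : X.dir φ φ = X.dir (u n) φ - X.dir (u m) φ := by
    have := dsub φ (u n) (u m) hφs hn2.smooth hm2.smooth
    rw [dsym (u n) φ, dsym (u m) φ]
    exact this
  have b1 := (abs_le.mp (hn2.bd φ hφs)).2
  have b2 := (abs_le.mp (hm2.bd φ hφs)).1
  have c1 := (abs_le.mp (nlh (u n) φ (sC _ hn2.smooth) hφc (hn3.trans hCC))).2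
  have c2 := (abs_le.mp (nlh (u m) φ (sC _ hm2.smooth) hφc (hm3.trans hCC))).1
  have c3 : b * (S * Real.sqrt (∫ x, φ x ^ 2 ∂X.vol)) ≤ b * (S * s) := by
    apply mul_le_mul_of_nonneg_left _ hb0.le
    exact mul_le_mul_of_nonneg_left hφ3 hS1.le
  have hh : X.h1sq φ = ∫ x, φ x ^ 2 ∂X.vol + X.dir φ φ := rfl
  have hy0 : 0 ≤ X.h1sq φ := by
    rw [hh]
    have := dnn φ
    have h0 : 0 ≤ ∫ x, φ x ^ 2 ∂X.vol := integral_nonneg fun x => sq_nonneg _
    linarith
  set y := X.h1sq φ with hy
  set I1 := ∫ x, h x * Real.exp (u n x) * φ x ∂X.vol with hI1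
  set I2 := ∫ x, h x * Real.exp (u m x) * φ x ∂X.vol with hI2
  have c4 : lam * I1 ≤ lam * (b * (S * s)) := mul_le_mul_of_nonneg_left (c1.trans c3) hlam.le
  have c5 : -(lam * (b * (S * s))) ≤ lam * I2 := by
    have g1 : -(b * (S * s)) ≤ I2 := by linarith
    have g2 := mul_le_mul_of_nonneg_left g1 hlam.le
    linarith
  have hsy : Real.sqrt y * Real.sqrt y = y := Real.mul_self_sqrt hy0
  have hse : Real.sqrt ε * Real.sqrt ε = ε := Real.mul_self_sqrt hε.le
  have hfin : y ≤ s ^ 2 + (2 * (Real.sqrt ε / 4 * Real.sqrt y) + 2 * (lam * (b * (S * s)))) := by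
    have hyy : y = ∫ x, φ x ^ 2 ∂X.vol + (X.dir (u n) φ - X.dir (u m) φ) := hh.trans (by rw [hdd])
    linarith
  have hsq := sq_nonneg (Real.sqrt y - Real.sqrt ε / 2)
  have hs3 : 2 * (lam * (b * (S * s))) ≤ ε / 8 := by
    have : 4 * (lam * (b * S)) * s = 4 * (lam * (b * (S * s))) := by ring
    linarith
  nlinarith

end Pool.Agent.W787.PS
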