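import Pool.Agent.W787.PS.StmB

/-!
# Project PS: Rellich compactness along an ultrafilter
-/

open MeasureTheory Set Metric Filter Topology
open scoped ContDiff

noncomputable section

namespace Pool.Agent.W787.PS

namespace RelAux

theorem sum_ind {α ι : Type*} [MeasurableSpace α] (μ : Measure α) (F : Finset ι) (U : ι → Set α)
    (hU : ∀ i ∈ F, MeasurableSet (U i)) (f : α → ℝ)
    (hi : ∀ i ∈ F, IntegrableOn f (U i) μ) :
    Integrable (fun x => ∑ i ∈ F, (U i).indicator f x) μ ∧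
    ∑ i ∈ F, ∫ x in U i, f x ∂μ = ∫ x, ∑ i ∈ F, (U i).indicator f x ∂μ := by
  have h : ∀ i ∈ F, Integrable (fun x => (U i).indicator f x) μ :=
    fun i h => (hi i h).integrable_indicator (hU i h)
  refine ⟨integrable_finset_sum F h, ?_⟩
  rw [integral_finset_sum F h]
  exact Finset.sum_congr rfl fun i h => (integral_indicator (hU i h)).symm

theorem cover_le {α ι : Type*} [MeasurableSpace α] (μ : Measure α) (F : Finset ι) (U : ι → Set α)
    (hU : ∀ i ∈ F, MeasurableSet (U i)) (S : Set α) (hS : MeasurableSet S)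
    (hcov : ∀ x ∈ S, ∃ i ∈ F, x ∈ U i) (f : α → ℝ) (hf : ∀ x, 0 ≤ f x)
    (hi : ∀ i ∈ F, IntegrableOn f (U i) μ) :
    ∫ x in S, f x ∂μ ≤ ∑ i ∈ F, ∫ x in U i, f x ∂μ := by
  obtain ⟨h1, h2⟩ := sum_ind μ F U hU f hi
  rw [h2, ← integral_indicator hS]
  refine integral_mono_of_nonneg (ae_of_all _ fun x => indicator_nonneg (fun y _ => hf y) x) h1
    (ae_of_all _ fun x => ?_)
  show S.indicator f x ≤ ∑ i ∈ F, (U i).indicator f x
  by_cases hx : x ∈ S
  · obtain ⟨i, hiF, hxi⟩ := hcov x hx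
    rw [indicator_of_mem hx]
    have := Finset.single_le_sum (f := fun i => (U i).indicator f x)
      (fun i _ => indicator_nonneg (fun y _ => hf y) x) hiF
    simp only [indicator_of_mem hxi] at this
    exact this
  · rw [indicator_of_notMem hx]
    exact Finset.sum_nonneg fun i _ => indicator_nonneg (fun y _ => hf y) x

theorem overlap_le {α ι : Type*} [MeasurableSpace α] (μ : Measure α) (F : Finset ι)
    (U : ι → Set α) (hU : ∀ i ∈ F, MeasurableSet (U i)) (S : Set α) (hS : MeasurableSet S)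
    (hUS : ∀ i ∈ F, U i ⊆ S) (k : ℕ) (G : α → Finset ι) (hG : ∀ x, (G x).card ≤ k)
    (hov : ∀ i ∈ F, ∀ x ∈ U i, i ∈ G x) (f : α → ℝ) (hf : ∀ x, 0 ≤ f x)
    (hi : IntegrableOn f S μ) :
    ∑ i ∈ F, ∫ x in U i, f x ∂μ ≤ k * ∫ x in S, f x ∂μ := by
  classical
  obtain ⟨h1, h2⟩ := sum_ind μ F U hU f fun i h => hi.mono_set (hUS i h)
  rw [h2, ← integral_indicator hS, ← integral_const_mul]
  refine integral_mono h1 ((hi.integrable_indicator hS).const_mul _) fun x => ?_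
  show ∑ i ∈ F, (U i).indicator f x ≤ k * S.indicator f x
  have h3 : ∑ i ∈ F, (U i).indicator f x ≤ ∑ i ∈ G x, S.indicator f x := by
    have e1 : ∑ i ∈ F, (U i).indicator f x = ∑ i ∈ F.filter (fun i => x ∈ U i),
        (U i).indicator f x := by
      rw [Finset.sum_filter]
      refine Finset.sum_congr rfl fun i _ => ?_
      by_cases hx : x ∈ U i
      · simp [hx]
      · simp [hx]
    rw [e1]
    have e2 : F.filter (fun i => x ∈ U i) ⊆ G x := by
      intro i hi'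
      rw [Finset.mem_filter] at hi'
      exact hov i hi'.1 x hi'.2
    refine le_trans ?_ (Finset.sum_le_sum_of_subset_of_nonneg e2
      fun i _ _ => indicator_nonneg (fun y _ => hf y) x)
    refine Finset.sum_le_sum fun i hi' => ?_
    rw [Finset.mem_filter] at hi'
    rw [indicator_of_mem hi'.2, indicator_of_mem (hUS i hi'.1 hi'.2)]
  refine h3.trans ?_
  rw [Finset.sum_const, nsmul_eq_mul]
  apply mul_le_mul_of_nonneg_right _ (indicator_nonneg (fun y _ => hf y) x)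
  exact_mod_cast hG x

/-- The average on a disc. -/
theorem avg_id (v : ℂ → ℝ) (a : ℂ) (s : ℝ) (hs : 0 < s) (hv : IntegrableOn v (ball a s))
    (hv2 : IntegrableOn (fun x => v x ^ 2) (ball a s)) :
    ∫ x in ball a s, (v x - avg v a s) ^ 2 =
      (∫ x in ball a s, v x ^ 2) - Real.pi * s ^ 2 * avg v a s ^ 2 := by
  set m := avg v a s with hm
  have hvol : (volume (ball a s)).toReal = Real.pi * s ^ 2 := by
    rw [Complex.volume_ball]
    simp [ENNReal.toReal_mul, hs.le, mul_comm]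
  have hfin : volume (ball a s) ≠ ⊤ := measure_ball_lt_top.ne
  have hI : ∫ x in ball a s, v x = Real.pi * s ^ 2 * m := by
    rw [hm, avg, ← mul_assoc, mul_inv_cancel₀ (by positivity), one_mul]
  have e : ∀ x, (v x - m) ^ 2 = v x ^ 2 + ((-2 * m) * v x + m ^ 2) := fun x => by ring
  simp_rw [e]
  have hc : IntegrableOn (fun _ : ℂ => m ^ 2) (ball a s) := integrableOn_const hfin
  have hvm : IntegrableOn (fun x => (-2 * m) * v x) (ball a s) := hv.const_mul _
  have hvmc : IntegrableOn (fun x => (-2 * m) * v x + m ^ 2) (ball a s) := hvm.add hc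
  rw [integral_add hv2 hvmc, integral_add hvm hc, integral_const_mul, hI]
  simp only [integral_const, measureReal_def, Measure.restrict_apply_univ, hvol, smul_eq_mul]
  ring

/-- centre of the grid -/
def ctr (N : ℕ) (j : ℤ × ℤ) : ℂ := ⟨j.1 / N, j.2 / N⟩

/-- index set of the grid -/
def gridJ (N : ℕ) : Finset (ℤ × ℤ) := Finset.Icc (-(N : ℤ)) N ×ˢ Finset.Icc (-(N : ℤ)) N

theorem round_mem (N : ℕ) (x : ℝ) (hx : |x| < 1) : round (N * x) ∈ Finset.Icc (-(N : ℤ)) N := by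
  have h1 := abs_sub_round ((N : ℝ) * x)
  have hN : (0 : ℝ) ≤ N := Nat.cast_nonneg N
  rw [abs_lt] at hx
  rw [abs_le] at h1
  have h2 : (N : ℝ) * x ≤ N := by nlinarith
  have h3 : -(N : ℝ) ≤ N * x := by nlinarith
  rw [Finset.mem_Icc]
  constructor
  · have : (-(N : ℤ) : ℤ) < round ((N : ℝ) * x) + 1 := by
      have : (-(N : ℝ)) < (round ((N : ℝ) * x) : ℝ) + 1 := by linarith
      exact_mod_cast this
    linarith
  · have : round ((N : ℝ) * x) < (N : ℤ) + 1 := by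
      have : (round ((N : ℝ) * x) : ℝ) < (N : ℝ) + 1 := by linarith
      exact_mod_cast this
    linarith

theorem grid_cover (N : ℕ) (hN : 2 ≤ N) (z : ℂ) (hz : z ∈ ball (0 : ℂ) 1) :
    ∃ j ∈ gridJ N, z ∈ ball (ctr N j) (1 / N) := by
  have hz1 : ‖z‖ < 1 := by simpa using hz
  have hN0 : (0 : ℝ) < N := by exact_mod_cast (by omega : 0 < N)
  refine ⟨(round ((N : ℝ) * z.re), round ((N : ℝ) * z.im)), ?_, ?_⟩
  · rw [gridJ, Finset.mem_product]
    exact ⟨round_mem N _ ((Complex.abs_re_le_norm z).trans_lt hz1),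
      round_mem N _ ((Complex.abs_im_le_norm z).trans_lt hz1)⟩
  · rw [mem_ball, dist_eq_norm]
    have h1 := abs_sub_round ((N : ℝ) * z.re)
    have h2 := abs_sub_round ((N : ℝ) * z.im)
    apply lt_of_pow_lt_pow_left₀ 2 (by positivity)
    rw [Complex.sq_norm, Complex.normSq_apply]
    simp only [ctr, Complex.sub_re, Complex.sub_im]
    set p := (round ((N : ℝ) * z.re) : ℝ)
    set q := (round ((N : ℝ) * z.im) : ℝ)
    have e1 : z.re - p / N = (N * z.re - p) / N := by field_simp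
    have e2 : z.im - q / N = (N * z.im - q) / N := by field_simp
    rw [e1, e2]
    have g1 : (N * z.re - p) ^ 2 ≤ (1 / 2) ^ 2 := sq_le_sq' (by linarith [abs_le.mp h1]) (abs_le.mp h1).2
    have g2 : (N * z.im - q) ^ 2 ≤ (1 / 2) ^ 2 := sq_le_sq' (by linarith [abs_le.mp h2]) (abs_le.mp h2).2
    have e3 : (N * z.re - p) / N * ((N * z.re - p) / N) + (N * z.im - q) / N * ((N * z.im - q) / N)
        = ((N * z.re - p) ^ 2 + (N * z.im - q) ^ 2) / (N : ℝ) ^ 2 := by ring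
    have e4 : (1 / (N : ℝ)) ^ 2 = 1 / (N : ℝ) ^ 2 := by rw [div_pow, one_pow]
    rw [e3, e4]
    apply div_lt_div_of_pos_right _ (by positivity)
    linarith

theorem ctr_norm (N : ℕ) (hN : 2 ≤ N) (j : ℤ × ℤ) (hj : j ∈ gridJ N) : ‖ctr N j‖ ≤ 3 / 2 := by
  have hN0 : (0 : ℝ) < N := by exact_mod_cast (by omega : 0 < N)
  rw [gridJ, Finset.mem_product, Finset.mem_Icc, Finset.mem_Icc] at hj
  have a1 : -(N : ℝ) ≤ j.1 := by exact_mod_cast hj.1.1
  have a2 : (j.1 : ℝ) ≤ N := by exact_mod_cast hj.1.2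
  have a3 : -(N : ℝ) ≤ j.2 := by exact_mod_cast hj.2.1
  have a4 : (j.2 : ℝ) ≤ N := by exact_mod_cast hj.2.2
  apply le_of_sq_le_sq _ (by norm_num)
  rw [Complex.sq_norm, Complex.normSq_apply]
  simp only [ctr]
  have b1 : (j.1 : ℝ) ^ 2 ≤ (N : ℝ) ^ 2 := sq_le_sq' a1 a2
  have b2 : (j.2 : ℝ) ^ 2 ≤ (N : ℝ) ^ 2 := sq_le_sq' a3 a4
  have e : (j.1 : ℝ) / N * (j.1 / N) + j.2 / N * (j.2 / N)
      = ((j.1 : ℝ) ^ 2 + (j.2 : ℝ) ^ 2) / (N : ℝ) ^ 2 := by ring
  rw [e, div_le_iff₀ (by positivity)]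
  nlinarith

/-- possible indices near a point -/
def gridG (N : ℕ) (z : ℂ) : Finset (ℤ × ℤ) :=
  Finset.Icc ⌊(N : ℝ) * z.re⌋ (⌊(N : ℝ) * z.re⌋ + 1) ×ˢ
    Finset.Icc ⌊(N : ℝ) * z.im⌋ (⌊(N : ℝ) * z.im⌋ + 1)

theorem gridG_card (N : ℕ) (z : ℂ) : (gridG N z).card ≤ 4 := by
  rw [gridG, Finset.card_product, Int.card_Icc, Int.card_Icc]
  have : ∀ t : ℤ, (t + 1 + 1 - t).toNat = 2 := by intro t; ring_nf; rfl
  rw [this, this]

theorem flo (x : ℝ) (j : ℤ) (h : |x - j| < 1) : j ∈ Finset.Icc ⌊x⌋ (⌊x⌋ + 1) := by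
  rw [abs_lt] at h
  rw [Finset.mem_Icc]
  constructor
  · have h1 := Int.floor_le x
    have : (⌊x⌋ : ℝ) < j + 1 := by linarith
    have : ⌊x⌋ < j + 1 := by exact_mod_cast this
    linarith
  · have h1 := Int.lt_floor_add_one x
    have : (j : ℝ) < ⌊x⌋ + 2 := by linarith
    have : j < ⌊x⌋ + 2 := by exact_mod_cast this
    linarith

theorem grid_ov (N : ℕ) (hN : 2 ≤ N) (j : ℤ × ℤ) (z : ℂ) (hz : z ∈ ball (ctr N j) (1 / N)) :
    j ∈ gridG N z := by
  have hN0 : (0 : ℝ) < N := by exact_mod_cast (by omega : 0 < N)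
  rw [mem_ball, dist_eq_norm] at hz
  have h1 := (Complex.abs_re_le_norm (z - ctr N j)).trans_lt hz
  have h2 := (Complex.abs_im_le_norm (z - ctr N j)).trans_lt hz
  simp only [ctr, Complex.sub_re, Complex.sub_im] at h1 h2
  rw [gridG, Finset.mem_product]
  constructor
  · apply flo
    have e : (N : ℝ) * z.re - j.1 = N * (z.re - j.1 / N) := by field_simp
    rw [e, abs_mul, abs_of_pos hN0]
    rw [lt_div_iff₀ hN0] at h1
    linarith
  · apply flo
    have e : (N : ℝ) * z.im - j.2 = N * (z.im - j.2 / N) := by field_simp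
    rw [e, abs_mul, abs_of_pos hN0]
    rw [lt_div_iff₀ hN0] at h2
    linarith

theorem nsq_cont (v : ℂ → ℝ) (hv : ContDiffOn ℝ 1 v (ball 0 8)) :
    ContinuousOn (nsq v) (ball 0 8) := by
  have h := hv.continuousOn_fderiv_of_isOpen isOpen_ball le_rfl
  exact ((h.clm_apply continuousOn_const).pow 2).add ((h.clm_apply continuousOn_const).pow 2)

theorem int_of_cont (f : ℂ → ℝ) (hf : ContinuousOn f (ball 0 8)) (A : Set ℂ)
    (hA : A ⊆ ball 0 2) : IntegrableOn f A := by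
  have h1 : IntegrableOn f (closedBall 0 2) := by
    apply ContinuousOn.integrableOn_compact (isCompact_closedBall 0 2)
    exact hf.mono (closedBall_subset_ball (by norm_num))
  exact h1.mono_set (hA.trans ball_subset_closedBall)

theorem grid_sub (N : ℕ) (hN : 2 ≤ N) (j : ℤ × ℤ) (hj : j ∈ gridJ N) :
    ball (ctr N j) (1 / N) ⊆ ball 0 2 := by
  have h := ctr_norm N hN j hj
  apply ball_subset_ball'
  rw [dist_zero_right]
  have : (1 : ℝ) / N ≤ 1 / 2 := by
    apply one_div_le_one_div_of_le two_pos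
    exact_mod_cast hN
  linarith

/-- The planar inequality. -/
theorem planar (C : ℝ) (hC : 0 < C)
    (poi : ∀ (w : ℂ → ℝ) (a : ℂ) (r R : ℝ), 0 < r → r < R → ContDiffOn ℝ 1 w (ball a R) →
      ∫ x in ball a r, (w x - avg w a r) ^ 2 ≤ C * r ^ 2 * ∫ x in ball a r, nsq w x)
    (δ : ℝ) (hδ : 0 < δ) : ∃ N : ℕ, 2 ≤ N ∧ ∀ v : ℂ → ℝ, ContDiffOn ℝ 1 v (ball 0 8) →
      ∫ x in ball (0 : ℂ) 1, v x ^ 2 ≤ δ * (∫ x in ball (0 : ℂ) 2, nsq v x) +
        4 * ∑ j ∈ gridJ N, avg v (ctr N j) (1 / N) ^ 2 := by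
  obtain ⟨n, hn⟩ := exists_nat_gt (4 * C / δ)
  refine ⟨n + 2, by omega, fun v hv => ?_⟩
  set N := n + 2 with hNdef
  have hN : 2 ≤ N := by omega
  have hN0 : (0 : ℝ) < N := by exact_mod_cast (by omega : 0 < N)
  have hs : (0 : ℝ) < 1 / N := by positivity
  have hs2 : (1 : ℝ) / N ≤ 1 / 2 := by
    apply one_div_le_one_div_of_le two_pos
    exact_mod_cast hN
  have hvc : ContinuousOn v (ball 0 8) := hv.continuousOn
  have h1 : ∫ x in ball (0 : ℂ) 1, v x ^ 2 ≤
      ∑ j ∈ gridJ N, ∫ x in ball (ctr N j) (1 / N), v x ^ 2 := by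
    apply cover_le volume (gridJ N) (fun j => ball (ctr N j) (1 / N))
      (fun _ _ => measurableSet_ball) _ measurableSet_ball (fun z hz => grid_cover N hN z hz)
      (fun x => v x ^ 2) (fun x => sq_nonneg _)
    intro j hj
    exact int_of_cont _ (hvc.pow 2) _ (grid_sub N hN j hj)
  have h2 : ∀ j ∈ gridJ N, ∫ x in ball (ctr N j) (1 / N), v x ^ 2 ≤
      C * (1 / (N : ℝ)) ^ 2 * (∫ x in ball (ctr N j) (1 / N), nsq v x)
        + 4 * avg v (ctr N j) (1 / N) ^ 2 := by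
    intro j hj
    have g1 := avg_id v (ctr N j) (1 / N) hs (int_of_cont _ hvc _ (grid_sub N hN j hj))
      (int_of_cont _ (hvc.pow 2) _ (grid_sub N hN j hj))
    have hsub : ball (ctr N j) 1 ⊆ ball 0 8 := by
      apply ball_subset_ball'
      rw [dist_zero_right]
      have := ctr_norm N hN j hj
      linarith
    have g2 := poi v (ctr N j) (1 / N) 1 hs (by linarith) (hv.mono hsub)
    have g3 : Real.pi * (1 / (N : ℝ)) ^ 2 * avg v (ctr N j) (1 / N) ^ 2
        ≤ 4 * avg v (ctr N j) (1 / N) ^ 2 := by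
      apply mul_le_mul_of_nonneg_right _ (sq_nonneg _)
      have : (1 / (N : ℝ)) ^ 2 ≤ 1 := pow_le_one₀ hs.le (by linarith)
      nlinarith [Real.pi_pos, Real.pi_le_four]
    linarith
  have h3 : ∑ j ∈ gridJ N, ∫ x in ball (ctr N j) (1 / N), nsq v x ≤
      (4 : ℕ) * ∫ x in ball (0 : ℂ) 2, nsq v x := by
    apply overlap_le volume (gridJ N) (fun j => ball (ctr N j) (1 / N))
      (fun _ _ => measurableSet_ball) _ measurableSet_ball (fun j hj => grid_sub N hN j hj) 4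
      (gridG N) (gridG_card N) (fun j _ z hz => grid_ov N hN j z hz) (nsq v)
    · intro x; unfold nsq; positivity
    · exact int_of_cont _ (nsq_cont v hv) _ subset_rfl
  have h4 := h1.trans (Finset.sum_le_sum h2)
  rw [Finset.sum_add_distrib, ← Finset.mul_sum, ← Finset.mul_sum] at h4
  refine h4.trans ?_
  have hE : 0 ≤ ∫ x in ball (0 : ℂ) 2, nsq v x :=
    integral_nonneg fun x => by unfold nsq; positivity
  have h5 : C * (1 / (N : ℝ)) ^ 2 * ∑ j ∈ gridJ N, ∫ x in ball (ctr N j) (1 / N), nsq v x ≤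
      C * (1 / (N : ℝ)) ^ 2 * ((4 : ℕ) * ∫ x in ball (0 : ℂ) 2, nsq v x) :=
    mul_le_mul_of_nonneg_left h3 (by positivity)
  have h6 : C * (1 / (N : ℝ)) ^ 2 * (4 : ℕ) ≤ δ := by
    have g1 : (n : ℝ) ≤ N := by rw [hNdef]; push_cast; linarith
    have g2 : 4 * C / δ < N := hn.trans_le g1
    rw [div_lt_iff₀ hδ] at g2
    have g3 : (1 : ℝ) ≤ N := by exact_mod_cast (by omega : 1 ≤ N)
    rw [div_pow, one_pow, mul_one_div, div_mul_eq_mul_div, div_le_iff₀ (by positivity)]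
    push_cast
    nlinarith
  have h7 := mul_le_mul_of_nonneg_right h6 hE
  linarith

theorem aux1 (f ε b : ℝ) (hf : 0 ≤ f) (hε : 0 ≤ ε) (hb : 1 ≤ b) :
    f * (ε / (2 * (f + 1) * (4 * b)) * (4 * b)) ≤ ε / 2 := by
  have hb0 : (4 * b) ≠ 0 := by positivity
  have h2 : 0 < 2 * (f + 1) := by linarith
  have h1 : ε / (2 * (f + 1) * (4 * b)) * (4 * b) = ε / (2 * (f + 1)) := by
    rw [← div_div, div_mul_cancel₀ _ hb0]
  rw [h1, mul_div_assoc', div_le_iff₀ h2]
  nlinarith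

theorem aux2 (f g ε : ℝ) (hf : 0 ≤ f) (hg : 0 ≤ g) (hε : 0 ≤ ε) :
    f * (4 * (g * (ε / (2 * ((f + 1) * (4 * (g + 1))))))) ≤ ε / 2 := by
  have h2 : 0 < 2 * ((f + 1) * (4 * (g + 1))) := by positivity
  have e : f * (4 * (g * (ε / (2 * ((f + 1) * (4 * (g + 1))))))) =
      (f * (4 * (g * ε))) / (2 * ((f + 1) * (4 * (g + 1)))) := by ring
  rw [e, div_le_iff₀ h2]
  have h3 : 0 ≤ ε * f := mul_nonneg hε hf
  have h4 : 0 ≤ ε * g := mul_nonneg hε hg
  nlinarith

/-- A bounded real sequence is Cauchy along an ultrafilter. -/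
theorem cauchy_ultra (𝒰 : Ultrafilter ℕ) (A : ℕ → ℝ) (R : ℝ)
    (hA : ∀ᶠ n in (𝒰 : Filter ℕ), |A n| ≤ R) (θ : ℝ) (hθ : 0 < θ) :
    ∃ T ∈ (𝒰 : Filter ℕ), ∀ n ∈ T, ∀ m ∈ T, |A n - A m| ≤ θ := by
  have h1 : ((𝒰.map A : Ultrafilter ℝ) : Filter ℝ) ≤ 𝓟 (Icc (-R) R) := by
    rw [le_principal_iff]
    show A ⁻¹' Icc (-R) R ∈ (𝒰 : Filter ℕ)
    filter_upwards [hA] with n hn
    exact abs_le.mp hn
  obtain ⟨l, -, hl⟩ := (isCompact_Icc (a := -R) (b := R)).ultrafilter_le_nhds (𝒰.map A) h1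
  have h2 : Tendsto A (𝒰 : Filter ℕ) (𝓝 l) := hl
  have h3 : ∀ᶠ n in (𝒰 : Filter ℕ), |A n - l| < θ / 2 := by
    have := h2.eventually (Metric.ball_mem_nhds l (by positivity : 0 < θ / 2))
    filter_upwards [this] with n hn
    simpa [Real.dist_eq] using hn
  refine ⟨_, h3, fun n hn m hm => ?_⟩
  have hn : |A n - l| < θ / 2 := hn
  have hm : |A m - l| < θ / 2 := hm
  rw [abs_lt] at hn hm
  rw [abs_le]
  constructor <;> linarith

/-- The average is bounded by the `L²` norm. -/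
theorem avg_sq_le (v : ℂ → ℝ) (a : ℂ) (s : ℝ) (hs : 0 < s) (hv : IntegrableOn v (ball a s))
    (hv2 : IntegrableOn (fun x => v x ^ 2) (ball a s)) :
    Real.pi * s ^ 2 * avg v a s ^ 2 ≤ ∫ x in ball a s, v x ^ 2 := by
  have h1 := avg_id v a s hs hv hv2
  have h2 : 0 ≤ ∫ x in ball a s, (v x - avg v a s) ^ 2 := integral_nonneg fun x => sq_nonneg _
  linarith

end RelAux

open RelAux in
theorem rel (h1 : S_DISC) (h2 : S_POI) (h3 : S_SMO) (_h4 : S_GIP) (h5 : S_DIR) : S_REL := by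
  intro M _ _ _ _ _ X 𝒰 u B hu ε hε
  have hprob : IsProbabilityMeasure X.vol := ⟨X.vol_univ⟩
  obtain ⟨sC, scon, sadd, ssub, smul, scmul, scomp, gsym, gadd, gsub, gcm, gco, gnn, gch⟩ := h3 M X
  obtain ⟨dint, dcs, dsym, dadd, dsub, dcm, dco, dnn⟩ := h5 M X
  obtain ⟨C, hC, poi⟩ := h2
  have intc : ∀ f : M → ℝ, Continuous f → Integrable f X.vol := fun f hf =>
    hf.integrable_of_hasCompactSupport (HasCompactSupport.of_compactSpace f)
  choose κ d hdisc h0 hd using fun x : M => h1 M X x 1 one_pos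
  obtain ⟨F, -, hF⟩ := (isCompact_univ (X := M)).elim_nhds_subcover
    (fun x => κ x '' ball 0 1) (fun x _ => by
      refine ((hdisc x).isOpen _ isOpen_ball (ball_subset_ball (by norm_num))).mem_nhds ?_
      exact ⟨0, mem_ball_self one_pos, h0 x⟩)
  have hcov : ∀ y ∈ (univ : Set M), ∃ x ∈ F, y ∈ κ x '' ball 0 1 := by
    intro y _
    have := hF (mem_univ y)
    rw [mem_iUnion₂] at this
    obtain ⟨x, hx, hy⟩ := this
    exact ⟨x, hx, hy⟩
  set B' := max B 1 with hB'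
  have hB1 : 1 ≤ B' := le_max_right _ _
  -- choice of delta
  set δ : ℝ := ε / (2 * (F.card + 1) * (4 * B')) with hδ
  have hcF : (0 : ℝ) ≤ F.card := Nat.cast_nonneg _
  have hδ0 : 0 < δ := by positivity
  obtain ⟨N, hN, hplan⟩ := planar C hC poi δ hδ0
  have hN0 : (0 : ℝ) < N := by exact_mod_cast (by omega : 0 < N)
  have hs : (0 : ℝ) < 1 / N := by positivity
  -- the averages
  have hball : ∀ x : M, ∀ w : M → ℝ, X.Smooth w → ContDiffOn ℝ 1 (w ∘ κ x) (ball 0 8) :=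
    fun x w hw => ((hdisc x).smooth w hw).of_le (by exact_mod_cast le_top)
  have havg : ∀ x : M, ∃ R : ℝ, ∀ w : M → ℝ, X.Smooth w → ∫ y, w y ^ 2 ∂X.vol ≤ B' →
      ∀ j ∈ gridJ N, |avg (w ∘ κ x) (ctr N j) (1 / N)| ≤ R := by
    intro x
    obtain ⟨c, Cc, hc, hcb⟩ := (hdisc x).d_bd
    refine ⟨Real.sqrt ((Real.pi * (1 / (N : ℝ)) ^ 2)⁻¹ * (c⁻¹ * B')), fun w hw hwB j hj => ?_⟩
    apply Real.abs_le_sqrt
    have hv := hball x w hw
    have hvc : ContinuousOn (w ∘ κ x) (ball 0 8) := hv.continuousOn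
    have g1 := avg_sq_le (w ∘ κ x) (ctr N j) (1 / N) hs (int_of_cont _ hvc _ (grid_sub N hN j hj))
      (int_of_cont _ (hvc.pow 2) _ (grid_sub N hN j hj))
    have g2 : ∫ z in ball (ctr N j) (1 / N), (w ∘ κ x) z ^ 2 ≤
        ∫ z in ball (0 : ℂ) 2, (w ∘ κ x) z ^ 2 := by
      apply setIntegral_mono_set (int_of_cont _ (hvc.pow 2) _ subset_rfl)
        (ae_of_all _ fun z => sq_nonneg _)
      exact (grid_sub N hN j hj).eventuallyLE
    have h82 : ball (0 : ℂ) 2 ⊆ ball 0 8 := ball_subset_ball (by norm_num)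
    have g3 : ∫ z in ball (0 : ℂ) 2, (w ∘ κ x) z ^ 2 ≤
        c⁻¹ * ∫ z in ball (0 : ℂ) 2, (w (κ x z)) ^ 2 * d x z := by
      rw [← integral_const_mul]
      have hdc : ContinuousOn (d x) (ball 0 8) := (hdisc x).d_smooth.continuousOn
      apply setIntegral_mono_on (int_of_cont _ (hvc.pow 2) _ subset_rfl) _ measurableSet_ball
      · intro z hz
        have := (hcb z (h82 hz)).1
        have e : w (κ x z) ^ 2 = c⁻¹ * (w (κ x z) ^ 2 * c) := by field_simp
        show w (κ x z) ^ 2 ≤ c⁻¹ * (w (κ x z) ^ 2 * d x z)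
        rw [e]
        apply mul_le_mul_of_nonneg_left _ (by positivity)
        have e2 : c⁻¹ * (w (κ x z) ^ 2 * c) = w (κ x z) ^ 2 := by field_simp
        rw [e2]
        exact mul_le_mul_of_nonneg_left this (sq_nonneg _)
      · apply int_of_cont _ _ _ subset_rfl
        exact continuousOn_const.mul ((hvc.pow 2).mul hdc)
    have g4 := ((hdisc x).intg (fun y => w y ^ 2) (ball 0 2) measurableSet_ball h82).2
    have g5 : ∫ y in κ x '' ball 0 2, w y ^ 2 ∂X.vol ≤ B' := by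
      refine le_trans ?_ hwB
      exact setIntegral_le_integral (intc _ ((sC w hw).pow 2)) (ae_of_all _ fun z => sq_nonneg _)
    rw [g4] at g5
    have g6 : Real.pi * (1 / (N : ℝ)) ^ 2 * avg (w ∘ κ x) (ctr N j) (1 / N) ^ 2 ≤ c⁻¹ * B' := by
      refine g1.trans (g2.trans (g3.trans ?_))
      exact mul_le_mul_of_nonneg_left g5 (by positivity)
    rw [inv_mul_eq_div, le_div_iff₀ (by positivity)]
    linarith
  set θ : ℝ := Real.sqrt (ε / (2 * ((F.card + 1) * (4 * ((gridJ N).card + 1))))) with hθ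
  have hθ0 : 0 < θ := Real.sqrt_pos.mpr (by positivity)
  have hθ2 : θ ^ 2 = ε / (2 * ((F.card + 1) * (4 * ((gridJ N).card + 1)))) :=
    Real.sq_sqrt (by positivity)
  have hT1 : ∀ x : M, ∀ j ∈ gridJ N, ∃ T ∈ (𝒰 : Filter ℕ), ∀ n ∈ T, ∀ m ∈ T,
      |avg (u n ∘ κ x) (ctr N j) (1 / N) - avg (u m ∘ κ x) (ctr N j) (1 / N)| ≤ θ := by
    intro x j hj
    obtain ⟨R, hR⟩ := havg x
    apply cauchy_ultra 𝒰 _ R _ θ hθ0
    filter_upwards [hu] with n hn
    apply hR (u n) hn.1 _ j hj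
    have : X.h1sq (u n) = ∫ y, u n y ^ 2 ∂X.vol + X.dir (u n) (u n) := rfl
    have h0 := dnn (u n)
    have h2 := le_max_left B 1
    linarith [hn.2]
  choose T hTm hT using hT1
  -- the final set
  have hT2 : {n | X.Smooth (u n) ∧ X.h1sq (u n) ≤ B} ∈ (𝒰 : Filter ℕ) := hu
  have hTT : (⋂ x ∈ F, ⋂ j ∈ (gridJ N).attach, T x j.1 j.2) ∈ (𝒰 : Filter ℕ) := by
    rw [biInter_finset_mem]
    intro x _
    rw [biInter_finset_mem]
    intro j _
    exact hTm x j.1 j.2
  refine ⟨_, inter_mem hT2 hTT, ?_⟩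
  rintro n ⟨hn, hnT⟩ m ⟨hm, hmT⟩
  have hn : X.Smooth (u n) ∧ X.h1sq (u n) ≤ B := hn
  have hm : X.Smooth (u m) ∧ X.h1sq (u m) ≤ B := hm
  set w : M → ℝ := fun y => u n y - u m y with hw
  have hws : X.Smooth w := ssub _ _ hn.1 hm.1
  have hwc := sC w hws
  -- energy
  have hsq0 : ∀ k, 0 ≤ ∫ y, u k y ^ 2 ∂X.vol := fun k => integral_nonneg fun y => sq_nonneg _
  have hen : ∀ k, X.Smooth (u k) ∧ X.h1sq (u k) ≤ B → X.dir (u k) (u k) ≤ B' := by
    intro k hk
    have : X.h1sq (u k) = ∫ y, u k y ^ 2 ∂X.vol + X.dir (u k) (u k) := rfl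
    have h2 := le_max_left B 1
    linarith [hk.2, hsq0 k]
  have hdw : X.dir w w ≤ 4 * B' := by
    have e1 : X.dir w w = X.dir w (u n) - X.dir w (u m) := dsub w (u n) (u m) hws hn.1 hm.1
    have e2 : X.dir w (u n) = X.dir (u n) (u n) - X.dir (u n) (u m) := by
      rw [dsym w (u n)]; exact dsub (u n) (u n) (u m) hn.1 hn.1 hm.1
    have e3 : X.dir w (u m) = X.dir (u m) (u n) - X.dir (u m) (u m) := by
      rw [dsym w (u m)]; exact dsub (u m) (u n) (u m) hm.1 hn.1 hm.1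
    have e4 := dcs (u n) (u m) hn.1 hm.1
    have e5 : X.dir (u m) (u n) = X.dir (u n) (u m) := dsym _ _
    have e6 := hen n hn
    have e7 := hen m hm
    have e8 := Real.sqrt_le_sqrt e6
    have e9 := Real.sqrt_le_sqrt e7
    have e10 : Real.sqrt (X.dir (u n) (u n)) * Real.sqrt (X.dir (u m) (u m)) ≤
        Real.sqrt B' * Real.sqrt B' := mul_le_mul e8 e9 (Real.sqrt_nonneg _) (Real.sqrt_nonneg _)
    rw [Real.mul_self_sqrt (by linarith)] at e10
    have e11 := (abs_le.mp (e4.trans e10)).1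
    linarith
  -- cover
  have hop : ∀ x : M, MeasurableSet (κ x '' ball 0 1) := fun x =>
    ((hdisc x).isOpen _ isOpen_ball (ball_subset_ball (by norm_num))).measurableSet
  have c1 : ∫ y, w y ^ 2 ∂X.vol ≤ ∑ x ∈ F, ∫ y in κ x '' ball 0 1, w y ^ 2 ∂X.vol := by
    rw [← setIntegral_univ]
    exact cover_le X.vol F (fun x => κ x '' ball 0 1) (fun x _ => hop x) univ MeasurableSet.univ
      hcov (fun y => w y ^ 2) (fun y => sq_nonneg _)
      (fun x _ => (intc _ (hwc.pow 2)).integrableOn)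
  have c2 : ∀ x ∈ F, ∫ y in κ x '' ball 0 1, w y ^ 2 ∂X.vol ≤
      δ * (4 * B') + 4 * ((gridJ N).card * θ ^ 2) := by
    intro x hx
    have h81 : ball (0 : ℂ) 1 ⊆ ball 0 8 := ball_subset_ball (by norm_num)
    have h82 : ball (0 : ℂ) 2 ⊆ ball 0 8 := ball_subset_ball (by norm_num)
    have hv := hball x w hws
    have hvc : ContinuousOn (w ∘ κ x) (ball 0 8) := hv.continuousOn
    have hdc : ContinuousOn (d x) (ball 0 8) := (hdisc x).d_smooth.continuousOn
    rw [((hdisc x).intg (fun y => w y ^ 2) (ball 0 1) measurableSet_ball h81).2]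
    have f1 : ∫ z in ball (0 : ℂ) 1, w (κ x z) ^ 2 * d x z ≤
        ∫ z in ball (0 : ℂ) 1, (w ∘ κ x) z ^ 2 := by
      apply setIntegral_mono_on _ _ measurableSet_ball
      · intro z hz
        have := hd x z (h81 hz)
        show w (κ x z) ^ 2 * d x z ≤ w (κ x z) ^ 2
        nlinarith [sq_nonneg (w (κ x z))]
      · exact int_of_cont _ ((hvc.pow 2).mul hdc) _ (ball_subset_ball (by norm_num))
      · exact int_of_cont _ (hvc.pow 2) _ (ball_subset_ball (by norm_num))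
    refine f1.trans ((hplan _ hv).trans ?_)
    have f2 : ∫ z in ball (0 : ℂ) 2, nsq (w ∘ κ x) z ≤ 4 * B' := by
      refine le_trans ?_ hdw
      have e1 := ((hdisc x).intg (X.gip w w) (ball 0 2) measurableSet_ball h82).2
      have e2 : ∫ z in ball (0 : ℂ) 2, nsq (w ∘ κ x) z =
          ∫ z in ball (0 : ℂ) 2, X.gip w w (κ x z) * d x z := by
        apply setIntegral_congr_fun measurableSet_ball
        intro z hz
        have := (hdisc x).gip w w hws hws z (h82 hz)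
        show nsq (w ∘ κ x) z = X.gip w w (κ x z) * d x z
        rw [this]
        unfold nsq gdot
        ring
      rw [e2, ← e1]
      exact setIntegral_le_integral (dint w w hws hws) (ae_of_all _ fun y => gnn w y)
    have f3 : ∑ j ∈ gridJ N, avg (w ∘ κ x) (ctr N j) (1 / N) ^ 2 ≤ (gridJ N).card * θ ^ 2 := by
      rw [← nsmul_eq_mul, ← Finset.sum_const]
      apply Finset.sum_le_sum
      intro j hj
      have hnj : n ∈ T x j hj := by
        have := mem_iInter₂.mp hnT x hx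
        exact mem_iInter₂.mp this ⟨j, hj⟩ (Finset.mem_attach _ _)
      have hmj : m ∈ T x j hj := by
        have := mem_iInter₂.mp hmT x hx
        exact mem_iInter₂.mp this ⟨j, hj⟩ (Finset.mem_attach _ _)
      have e1 := hT x j hj n hnj m hmj
      have e2 : avg (w ∘ κ x) (ctr N j) (1 / N) = avg (u n ∘ κ x) (ctr N j) (1 / N)
          - avg (u m ∘ κ x) (ctr N j) (1 / N) := by
        unfold avg
        rw [← mul_sub, ← integral_sub]
        · rfl
        · exact int_of_cont _ (hball x _ hn.1).continuousOn _ (grid_sub N hN j hj)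
        · exact int_of_cont _ (hball x _ hm.1).continuousOn _ (grid_sub N hN j hj)
      rw [e2, ← sq_abs]
      exact pow_le_pow_left₀ (abs_nonneg _) e1 2
    have f4 := mul_le_mul_of_nonneg_left f2 hδ0.le
    linarith
  refine c1.trans ((Finset.sum_le_sum c2).trans ?_)
  rw [Finset.sum_const, nsmul_eq_mul, hθ2, hδ]
  have hg : (0 : ℝ) ≤ (gridJ N).card := Nat.cast_nonneg _
  have r1 := aux1 F.card ε B' hcF hε.le hB1
  have r2 := aux2 F.card (gridJ N).card ε hcF hg hε.le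
  linarith

end Pool.Agent.W787.PS
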